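import Pool.Agent.H433.TH.Main

/-!
# The inequality of Lang and Silverman for almost all principally polarised abelian surfaces

`MP_9a3c31_nt` (Q1, a partial answer). Lang and Silverman conjectured that `ĥ(P) ≥ c h_F(A / K)` for
all `P ∈ A(K)` whose multiples under `End A` are dense in `A`. We prove it, with an explicit
constant, for almost all (with a power saving) principally polarised abelian surfaces over a number
field `K`, given by their theta constants, for all the quadratic twists of these surfaces at once,
with the relative (not stable) Faltings height, and for all the points which are not of order two.

The surfaces. Let `c = (c_0, c_1, c_2, c_3)` be the values at `0` of the theta functions of the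
second order `Θ_b` of a principally polarised abelian surface `A` with a symplectic level structure
of type `(2, 4)`. The map `A ↦ c` is an isomorphism of the (Satake compactification of the coarse)
moduli space with the projective space `P³`. The four functions `Θ_b` embed the Kummer surface
`A / {±1}` in `P³`. With the ten even forms `Z k` (`k < 4`) and `Q m` (`m < 6`) one has
`θ(0) ^ 2 = T(c, c)`, `θ(z) ^ 2 = T(c, x)`, `θ(0) θ(2 z) = T(x, x)`, so
`T(c, c) T(c, 2 x) = T(x, x) ^ 2` for `T = Z k` and `T = Q m`. The four identities for the `Z k` give
the duplication `dbl c x`; the six identities for the `Q m` are six times the same equation, of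
degree four, of the Kummer surface (`Kummer c x`). `Theta c` says that no theta constant vanishes.

The points. A `K`-rational point `x` of the Kummer surface is the same as a `K`-rational point `P`
(up to the sign) of one of the quadratic twists `A_χ` of `A`, and every `P ∈ A_χ(K)` arises
in this way. `hhat c x` is the canonical height of `P` for the symmetric line bundle `2 Θ`, relative
to `K` (i.e. multiplied by `[K : ℚ]`), as the limit of `h([2 ^ n] x) / 4 ^ n`; we also prove that
the limit exists. `Prop2 (dbl c x) c` says that `2 P = 0`.

The height of the surface. `Height.logHeight c` is the height of `c`, relative to `K`. One has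
`[K : ℚ] h_F(A) = 2 h(c) + O(log h(c))` for the stable Faltings height (Bost, David, Pazuki).
If a place `v` does not divide `2` and no theta constant vanishes modulo `v`, then a quadratic
twist of `A` has good reduction at `v`; if `A_χ` does not, then its local contribution to the
relative Faltings height is `log (N v)`, and all the points of `A_χ(K)` are congruent modulo
`v` to points of order two (`TwoMod c x v`). If exactly one of the ten `T(c, c)` vanishes modulo `v`,
and to the first order, then the inertia group at `v` acts on the reduction, a product of two
elliptic curves, by `(1, -1)` or `(-1, 1)` for every `χ`, and the local contribution is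
`log (N v) / 2`; these are together `10 h(c)`, as the ten forms are quadratic. Hence
`[K : ℚ] h_F(A_χ / K)` is at most `12 h(c) + ∑_v log (N v)`, up to `ε h(c) + O(1)`, where `v` runs
over the places with `TwoMod c x v`. (This dictionary is not used in the proof.)

The theorem. For all but `C H ^ (-δ)` of the vectors `c ∈ (𝓞 K)⁴` with the coordinates of size at
most `H`, no theta constant vanishes, `h(c) ≥ (1 - ε) [K : ℚ] log H`, and for all the `K`-rational
points `x` of the Kummer surface with `2 P ≠ 0` one has
`ĥ(P) ≥ (1 / 12 - ε) h(c)` and `ĥ(P) ≥ (1 / 172 - ε) (12 h(c) + ∑_v log (N v))`.
In particular `A_χ(K)` has no points of finite order except those of order two, for all `χ`.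
-/

set_option autoImplicit false

open NumberField Finset

namespace Pool.Agent.Results.MP_9a3c31_nt.AbelianSurfaces

open Pool.Agent.H433.AC Pool.Agent.H433.TH

open Classical in
/-- The inequality of Lang and Silverman, with explicit constants, for almost all principally
polarised abelian surfaces and for all their quadratic twists. -/
theorem result (K : Type) [Field K] [NumberField K] {ε : ℝ} (hε : 0 < ε) : ∃ C δ : ℝ, 0 < δ ∧
    ∀ H : ℕ, 1 ≤ H →
      (((Fintype.piFinset fun _ : Fin 4 => box K H).filter fun c =>
        ¬ LangSilverman ε H c).card : ℝ) ≤
          C * (H : ℝ) ^ (-δ) * ((Fintype.piFinset fun _ : Fin 4 => box K H).card : ℝ) :=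
  main K hε

end Pool.Agent.Results.MP_9a3c31_nt.AbelianSurfaces
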