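import Pool.Agent.H433.HG.Main

/-!
# The inequality of Lang and Silverman for almost all hyperelliptic Jacobians of every genus with
# rational Weierstrass points, over all extensions of the base field

`MP_9a3c31_nt` (Q1, a partial answer in every dimension `g`). We prove the inequality of Q1, with
explicit constants, for almost all (with a power saving) hyperelliptic curves of genus `g` over a
number field `K` whose Weierstrass points are rational, one of them at infinity, for all the
quadratic twists of the Jacobians at once, for all their points `P` with `2 P ≠ 0`, and over all
the finite extensions `L` of `K` at once: the only dependence on `L` is a discriminant term.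

The curves. `a = (a_0, ..., a_{2 g})` are integers of `K` of size at most `H`, and `J_d` is the
Jacobian of the curve `d y ^ 2 = (x - a_0) ... (x - a_{2 g})`, `d ≠ 0` in `L`.

The points. The sets `S ∈ Sp g` with `g + 1` elements correspond to the theta characteristics which
do not vanish at the origin; let `θ_S` be the theta function. A point `P` of `J_d` has the projective
coordinates `x S = θ_S(z) ^ 2 / θ_S(0) ^ 2` on the Kummer variety, which do not depend on `d`, and
which are rational over `L` if `P ∈ J_d(L)`. If `P` is the class of `∑ (x_i, y_i) - g ∞`, then, up
to a common factor and with `f_T(x) = ∏_{t ∈ T} (x - a_t)` for the complement `T` of `S`,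
`x S = det [f_T(x_i) x_i ^ k (2 k < g), y_i x_i ^ l (2 l + 1 < g)] ^ 2 /
(∏_{i < j} (x_i - x_j) ^ 2 ∏_i f_T(x_i))`. The origin has the coordinates `x S = 1` (`Origin`).
There are linear relations between the `x S` (`Linear`), and `Double` is the duplication formula
`2 ^ g θ_S(z) ^ 4 = ∑_R ± θ_R(2 z) θ_R(0) ^ 3`, with Thomae's formula
`θ_S(0) ^ 4 = ± c / ∏_{i ∈ S, j ∉ S} (a_i - a_j)`; it determines the `x S` of `2 P`, because the
matrix of the signs is invertible. (These formulas were also checked by computer for `g ≤ 4`.)
`Orbit a X` says that `X n` is a vector of coordinates of `2 ^ n P` for all `n`. `hhat X` is the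
canonical height of `P` for the line bundle `2 Θ`, multiplied by `[L : ℚ]`; we prove that the limit
exists.

The height of the Jacobian. `hm a` is the height of the vector of the fourth powers of the theta
constants, so it is `2 [K : ℚ] h_F(J)`, up to `O(log)`, for the stable Faltings height `h_F(J)`. We
prove that it is `g ^ 2 [K : ℚ] log H`, up to `ε [K : ℚ] log H`. If `v` is a place of `L` which does
not divide `2`, then `J_d` has semistable reduction over the ramified quadratic extension; so its
local contribution to the difference of the relative and the stable Faltings height of `J_d` is at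
most `g / 2 log (N v)`. If it is not `0` and no two of the branch points coincide modulo `v`, then
`2 P` is congruent to the origin modulo `v` (`Zero (X 1) v`). The product of the `N v` over the
other places is at most the norm of the product of the differences of the `a_i`. Hence
`[L : ℚ] h_F(J_d / L) ≤ (g + 1 + ε) [L : K] hm a + g / 2 ∑_v log (N v) + O([L : ℚ])`, where `v` runs
over the places with `Zero (X 1) v`. (This dictionary is not used in the proof.)

The theorem. For all but `C H ^ (-δ)` of the vectors `a` we have, for all the finite extensions `L`
of `K`, for all `d`, for all `P ∈ J_d(L)` with `2 P ≠ 0`, for all the finite sets `S` of places of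
`L` with `2 P ≡ 0` modulo `v`:
`ĥ(P) ≥ [L : K] (1 / (4 g ^ 2) - ε) hm a + 1 / 4 ∑_{v ∈ S} log (N v) - 1 / 4 log N(d_{L/K})`.
Here `N(d_{L/K})` is the norm of the relative discriminant, so the last term vanishes for `L = K`
and for all the extensions which are unramified at the finite places. If one of the `k`-fold
differences of the coordinates of `2 P` (`dl`) is not zero, then the factor `1 / (4 g ^ 2)` can be
replaced by `k / (4 g ^ 2)`, and so by `1 / (4 g)` for `k = g`.

In particular we have, for the points in `J_d(K)`,
`ĥ(P) ≥ (1 / (4 g ^ 2 (g + 1)) - ε) [K : ℚ] h_F(J_d / K) - O(1)`, the points of finite order in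
`J_d(L)` are of order two for all `d ∈ L` if `log N(d_{L/K}) < [L : K] (1 / g ^ 2 - 4 ε) hm a`,
and the points in `J_d(L)` which are not of order two have canonical height `≫ [L : K] hm a` with a
constant which does not depend on `L`, as long as the root discriminant
`N(d_{L/K}) ^ (1 / [L : ℚ])` is at most `H ^ (1 - 8 g ^ 2 ε)`.

The relation with Q1. For almost all `a` the ring `End(J_d)` is `ℤ`, `J_d` is simple and every
ample symmetric line bundle has the same canonical height as a multiple `n Θ`, `n ≥ 1`. So this is
the inequality of Q1 for these Jacobians.
-/

set_option autoImplicit false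

open NumberField Finset

namespace Pool.Agent.Results.MP_9a3c31_nt.HyperellipticJacobians

open Pool.Agent.H433.AC Pool.Agent.H433.HG

open Classical in
/-- The inequality of Lang and Silverman, with explicit constants, for the Jacobians of almost all
hyperelliptic curves of genus `g` with rational Weierstrass points, for all their quadratic twists,
over all the finite extensions of the base field. -/
theorem result (g : ℕ) (hg : 1 ≤ g) (K : Type) [Field K] [NumberField K] {ε : ℝ} (hε : 0 < ε) :
    ∃ C δ : ℝ, 0 < δ ∧ ∀ H : ℕ, 1 ≤ H →
      (((Fintype.piFinset fun _ : Fin (2 * g + 1) => box K H).filter fun a =>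
        ¬ LangSilverman ε H a).card : ℝ) ≤
          C * (H : ℝ) ^ (-δ) *
            ((Fintype.piFinset fun _ : Fin (2 * g + 1) => box K H).card : ℝ) :=
  main g hg K hε

end Pool.Agent.Results.MP_9a3c31_nt.HyperellipticJacobians
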