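import Pool.Agent.H433.EW.Main3

/-!
# A lower bound of Lang and Silverman for all the hyperelliptic curves (all the curves of genus two),
# over all the extensions of the base field, in terms of the reductions with one node

`MP_9a3c31_nt` (Q1, a partial answer in every dimension `g`). For EVERY hyperelliptic curve
`y ^ 2 = f(x)` of genus `g` over a number field `K`, `f ∈ O_K[x]` of degree `2 g + 2`, and for all its
quadratic twists, we prove an explicit lower bound for the canonical heights of all the algebraic
points, in terms of the primes where the reduction of the curve has exactly one node. There is no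
condition for the ramification of the field of definition of the point. The bound is the inequality
of Q1 as soon as most of the discriminant of `f` comes from these primes, and as soon as the point
lies in the identity component (or in the other component, if there are only two) at most of these
primes.

The curves. Every double cover of genus `g` of the projective line over `K` (for `g = 2`: every curve
of genus two) has an equation `y ^ 2 = f(x)` with `f ∈ O_K[x]` of degree `2 g + 2` and
`D = f.discr ≠ 0`. `L` is a finite extension of `K` which contains the zeros `r_0, ..., r_{2 g + 1}`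
of `f`. `J_d` is the Jacobian of the curve `d y ^ 2 = f(x)`. Over `L` the last zero can be moved to
infinity: up to a twist, this is the curve `y ^ 2 = ∏ (x - b_i)` with
`b_i = 1 / (r_i - r_{2 g + 1})`, `i = 0, ..., 2 g` (`bc r`).

The heights. For all archimedean places `w` of `L` let `m_i(w) > 0` be real numbers with
`|r_i - r_j|_w ≤ m_i(w) m_j(w)`, and let `h_i = hm r m i` be the sum of the
`[L_w : ℝ] log m_i(w)` over these `w` and of the `log max(1, |r_i|_w)` over the finite places `w` of
`L`. For instance let `m_i(w) = √2 max(1, |r_i|_w)`. Then `h_i = [L : ℚ] (h(r_i) + 1 / 2 log 2)` with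
the absolute logarithmic Weil height `h(r_i)`, and by the lemma of Gauss the sum of the `h_i` is
`[L : K] H` with
`H = ∑_{v ∣ ∞} [K_v : ℝ] log M_v(f) - log N(c) + (g + 1) log 2 [K : ℚ]`, for the Mahler measures
`M_v(f)` and the content `c` of `f`. If `f` is irreducible, then all the `h_i` are equal. More
generally `m_i(w)` can be the norm of the vector `(r_i, 1)` for a hermitian form of determinant `1`.

The nodes. `T` is a finite set of primes `v` of `K` which do not divide the content of `f`, such that
exactly two of the zeros coincide (as points of the projective line) modulo every prime of `L` over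
`v` (`Node`). If `v` does not divide `2`, then this means that the reduction of the curve has exactly
one singular point, and that this is a node. `Δ_T = part T D = ∑_{v ∈ T} v(D) log N v`.

The points. The sets `S ∈ Sp g` with `g + 1` elements correspond to the theta characteristics which
do not vanish at the origin; let `θ_S` be the theta function. Let `E` be a finite extension of `L`.
A point `P` of `J_d(E)` has the coordinates `x S = θ_S(z) ^ 2 / θ_S(0) ^ 2` on the Kummer variety,
which do not depend on `d`. The origin has the coordinates `x S = 1` (`Origin`). There are linear
relations between the `x S` (`Linear`), and `Double` is the duplication formula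
`2 ^ g θ_S(z) ^ 4 = ∑_R ± θ_R(2 z) θ_R(0) ^ 3` with Thomae's formula
`θ_S(0) ^ 4 = ± c / ∏_{i ∈ S, j ∉ S} (b_i - b_j)`. `Orbit b X` says that `X n` is a vector of
coordinates of `2 ^ n P` for all `n`. `hhat X` is the canonical height of `P` for the line bundle
`2 Θ`, multiplied by `[E : ℚ]`. The height of the vector of the `1 / rs b S` is
`2 [L : ℚ] h_F(J)`, up to `O(log)`, for the stable Faltings height `h_F(J)`.

The components. Let `w` be a prime of `E` over `v ∈ T`, which does not divide `2`. Over
`E_w(√d)` the group of components of the Néron model of `J_d` is cyclic. Let `r_i`, `r_j` be the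
zeros which coincide modulo `w`. Then `P` lies in the identity component if and only if the maximum
of the `|x S|_w` is taken for a set `S` which separates them (`Ident`). If the chordal distance of
`r_i` and `r_j` is the absolute value of a uniformiser (`Thin`), then the group of components has the
order two. (This dictionary is not used in the proof.)

The theorem. The height of the vector of the `1 / rs b S` is at most `g ∑ h_i`. Let `P ∈ J_d(E)`, let
`n ≥ 0` and let `R` be a finite set of primes of `E`. Suppose that
for every prime `w ∉ R` of `E` over `T` the point `2 ^ n P` lies in the identity component, or `w` is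
thin and `n ≥ 1`. Then `2 ^ n P = 0`, or there are indices `i < j ≤ 2 g` with

`4 ^ n ĥ(P) ≥ [E : L] (3 / 4 ([L : K] Δ_T - 2 (2 g + 1) ∑ h_k) + h_i + h_j - 4 g [L : ℚ])
  + ∑_{v ∈ S} log (N v) - 1 / 4 ∑_{w ∈ R} w(D) log (N w)`

for every finite set `S` of primes of `E` with `2 ^ n P ≡ 0` modulo `v`. If one of the `k`-fold
differences of the coordinates of `2 ^ n P` (`dl`) is not zero, then `h_i + h_j` can be replaced by
the sum of the heights for the `k` disjoint pairs.

Consequences for Q1. Suppose that `f` is irreducible over `K` and that
`Δ_T ≥ (2 (2 g + 1) - 4 / (3 (g + 1)) + θ) H`, `θ > 0`.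
(a) Let `P ∈ J_d(K̄)`, `P ≠ 0`, be ANY algebraic point which lies in the identity components over `T`,
for instance the multiple by the exponents of the groups of components of any point. Then the
absolute canonical height of `P` is at least `3 θ / 4 H / [K : ℚ] - 4 g`: it is bounded below by the
height of the curve, whatever the field of definition of `P` is.
(b) Let all the `w` over `T` be thin, for instance `E = F L`, where `F / K` is unramified over `T` and
all the `v ∈ T` divide `D` exactly once, or `E = L = K` and the chordal distances are uniformisers.
Then this is true for all the points with `2 P ≠ 0`, with `1 / 4` of the bound.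
(c) If `2 ^ n P` is not in the identity component for some `w`, then the loss is at most
`1 / 4 w(D) log (N w)`; there is no loss for the other ones.
The terms with `S` control the contribution of the places of additive reduction of the twists to the
relative Faltings height: if such a place `v` does not divide `2 D`, then `2 P ≡ 0` modulo all the
places over `v` for all `P ∈ J_d(K)`.

The condition for `Δ_T` holds with every `θ < 4 / (3 (g + 1))` for 100 per cent of the polynomials of
degree `2 g + 2` over `ℤ`, ordered by the size of the coefficients, by the theorem of Bhargava,
Shankar and Wang on squarefree values of discriminants of binary forms; here `T` is the set of the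
primes which divide `D` exactly once. `MP_f5471b_nt`, AllHyperellipticCurves is the bound for all the
points over fields with bounded ramification in terms of these primes; here the primes of `T` can
divide `D` several times, and the ramification is arbitrary.

The proof. A lower bound for the height of the vector of the `θ_S(z) ^ 4`: in the identity component
at a node there is no loss at all at the finite places, whatever the ramification is, and in the
other components the loss is at most a third; and an explicit inequality between this height and the
canonical height.
-/

set_option autoImplicit false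

open NumberField IsDedekindDomain Finset Polynomial Filter Topology

namespace Pool.Agent.Results.MP_9a3c31_nt.HyperellipticNodes

open Pool.Agent.H433 Pool.Agent.H433.AC Pool.Agent.H433.HG Pool.Agent.H433.HD
open Pool.Agent.H433.EW.Poly (bc hm hml)

/-- An explicit lower bound for the canonical heights of the algebraic points of the Jacobians of
all the hyperelliptic curves `d y ^ 2 = f(x)`, `f` of degree `2 g + 2` with integral coefficients in
a number field, in terms of a set `T` of primes where the reduction has exactly one node, with an
error term for the primes (in `R`) where the point is not in the identity component. -/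
theorem result (g : ℕ) (hg : 1 ≤ g) (K L : Type) [Field K] [NumberField K] [Field L]
    [NumberField L] [Algebra K L] (f : (𝓞 K)[X]) (hn : f.natDegree = 2 * g + 2) (hD : f.discr ≠ 0)
    (r : Fin (2 * g + 2) → L)
    (hf : f.map (algebraMap (𝓞 K) L) =
      C (algebraMap (𝓞 K) L f.leadingCoeff) * ∏ i, (X - C (r i)))
    (m : Fin (2 * g + 2) → InfinitePlace L → ℝ) (hm0 : ∀ i w, 0 < m i w)
    (hm1 : ∀ w i j, w (r i - r j) ≤ m i w * m j w)
    (T : Finset (HeightOneSpectrum (𝓞 K)))
    (hT : ∀ v ∈ T, EW.Poly.Node r v ∧ ¬ f.contentIdeal ≤ v.asIdeal)
    (E : Type) [Field E] [NumberField E] [Algebra L E]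
    (X : ℕ → Finset (Fin (2 * g + 1)) → E) (hX : Orbit (fun i => algebraMap L E (bc r i)) X) :
    ht (fun S => (rs (bc r) S)⁻¹) ≤ g * ∑ k, hm r m k ∧
    Tendsto (fun n : ℕ => ht (X n) / 4 ^ n) atTop (𝓝 (hhat X)) ∧
    ∀ (n : ℕ) (R : Finset (HeightOneSpectrum (𝓞 E))),
      (∀ v ∈ T, ∀ (u : HeightOneSpectrum (𝓞 L)) (w : HeightOneSpectrum (𝓞 E)), Over v u →
        Over u w → w ∉ R → (1 ≤ n ∧ EW.Poly.Thin (fun i => algebraMap L E (r i)) w) ∨
          EW.Poly.Ident (fun i => algebraMap L E (r i)) (X n) w) →
      (Origin (X n) ∨ ∃ i j : Fin (2 * g + 1), i < j ∧
        ∀ S : Finset (HeightOneSpectrum (𝓞 E)), (∀ v ∈ S, Zero (X n) v) →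
        Module.finrank L E * (3 / 4 * (Module.finrank K L * part T f.discr -
          2 * (2 * g + 1) * ∑ k, hm r m k +
          4 / 3 * (hm r m i.castSucc + hm r m j.castSucc)) -
          4 * g * Module.finrank ℚ L) + ∑ v ∈ S, Real.log (nv v) -
          1 / 4 * part R (algebraMap (𝓞 L) (𝓞 E) (algebraMap (𝓞 K) (𝓞 L) f.discr)) ≤
          4 ^ n * hhat X) ∧
      ∀ l B, l ≠ [] → Apart l B → dl (X n) l B ≠ 0 →
        ∀ S : Finset (HeightOneSpectrum (𝓞 E)), (∀ v ∈ S, Zero (X n) v) →
        Module.finrank L E * (3 / 4 * (Module.finrank K L * part T f.discr -
          2 * (2 * g + 1) * ∑ k, hm r m k + 4 / 3 * hml r m l) -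
          4 * g * Module.finrank ℚ L) + ∑ v ∈ S, Real.log (nv v) -
          1 / 4 * part R (algebraMap (𝓞 L) (𝓞 E) (algebraMap (𝓞 K) (𝓞 L) f.discr)) ≤
          4 ^ n * hhat X := by
  obtain ⟨h1, -, h2⟩ :=
    (Pool.Agent.H433.EW.poly_a g hg K L f hn hD r hf m hm0 hm1 T hT).2.2 E X hX
  exact ⟨Pool.Agent.H433.EW.poly_up g K L f hn hD r hf m hm0 hm1, h1,
    fun n R hI => (h2 n R hI).2⟩

end Pool.Agent.Results.MP_9a3c31_nt.HyperellipticNodes
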