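import Pool.Agent.H433.CP.Main2

/-!
# The inequality of Lang and Silverman for 100 per cent of the hyperelliptic curves
# `y ^ 2 = φ(x) - t`, for all the polynomials `φ` with rational critical points, in every genus and
# over every number field

`MP_9a3c31_nt` (Q1, a partial answer in every dimension `g`). Let `K` be any number field. For all
the monic polynomials `φ` of degree `2 g + 1` with integral coefficients and rational critical points
(of bounded size) we prove the inequality of Lang and Silverman, with explicit constants, for the
Jacobians of 100 per cent of the curves `y ^ 2 = φ(x) - t` (with a power saving for the exceptional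
`t`, uniformly in `φ`), and for all their quadratic twists, over all the finite extensions of `K`.
In contrast to `MP_9a3c31_nt`, HyperellipticJacobians, where the Weierstrass points are rational, the
Galois group of `φ(x) - t` is the full symmetric group `S_{2 g + 1}` for 100 per cent of the `t`, and
the Jacobians have no rational point of order two.

The curves. `φ ∈ O_K[x]` is monic of degree `2 g + 1`, its derivative is
`(2 g + 1) (x - c_1) ... (x - c_{2 g})` with `c_i ∈ O_K`, the critical values `φ(c_i)` are different,
and for all the embeddings of `K` in `ℂ` we have `|c_i| ^ (2 g + 1) ≤ A T` and `|φ(0)| ≤ A T`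
(`Crit g A T φ c`). Examples: every `φ` with rational critical points and different critical values
if `T ≥ T_0(φ)`; or all the `φ` with `φ(0) = 0` and with `c_i ∈ (2 g)! O_K`,
`|c_i| ≤ (A T) ^ {1 / (2 g + 1)}` and with different critical values. `t` is in the box of the
elements of `O_K` whose coordinates in an integral basis are at most `T` (`box K T`). The map
`(c, t, φ(0)) ↦ φ - t` (and already its restriction to `φ(0) = 0`) from the space of dimension
`2 g + 1` to the space of all the monic polynomials of degree `2 g + 1` is finite and dominant (every
monic polynomial has this form over `K̄`), so we obtain a Zariski dense set of points of the moduli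
space of the hyperelliptic curves of genus `g` with a rational Weierstrass point. For 100 per cent of
the `t` the Galois group of `φ(x) - t` is `S_{2 g + 1}`, since the geometric monodromy group of a
polynomial with different critical values is generated by transpositions; then the Jacobian has
`End = ℤ` (Zarhin, `g ≥ 2`), and all the points of infinite order generate a Zariski dense subgroup.

The notation. `f = φ - t`, `D = f.discr`, `ℓ = [K : ℚ] log T`. `L` is the splitting field of `f`, and
`a_0, ..., a_{2 g}` are the zeros. `J_d` is the Jacobian of the curve `d y ^ 2 = f(x)`.

The points. The sets `S ∈ Sp g` with `g + 1` elements correspond to the theta characteristics which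
do not vanish at the origin; let `θ_S` be the theta function. Let `E` be a finite extension of `L`.
A point `P` of `J_d(E)` has the coordinates `x S = θ_S(z) ^ 2 / θ_S(0) ^ 2` on the Kummer variety,
which do not depend on `d`. The origin has the coordinates `x S = 1` (`Origin`). There are linear
relations between the `x S` (`Linear`), and `Double` is the duplication formula
`2 ^ g θ_S(z) ^ 4 = ∑_R ± θ_R(2 z) θ_R(0) ^ 3` with Thomae's formula
`θ_S(0) ^ 4 = ± c / ∏_{i ∈ S, j ∉ S} (a_i - a_j)`. `Orbit a X` says that `X n` is a vector of
coordinates of `2 ^ n P` for all `n`. `hhat X` is the canonical height of `P` for the line bundle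
`2 Θ`, multiplied by `[E : ℚ]`. The height of the vector of the `1 / rs a S` is
`2 [L : ℚ] h_F(J)`, up to `O(log)`, for the stable Faltings height `h_F(J)`.

The components. Let `w` be a prime of `E` over a prime `v` of `K` which divides `D` exactly once (and
does not divide `2`). The reduction of the curve has exactly one node. `P` lies in the identity
component of the Néron model over `E_w(√d)` if and only if, for the two zeros which coincide modulo
`w`, the maximum of the `|x S|_w` is taken for a set `S` which separates them (`Ident`). If the
difference of these zeros is a uniformiser at `w` (`Thin`, for instance if `E / L` is unramified at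
`w`), then the group of components has the order two. `Comp f a X n` says that for all these `w` the
point `2 ^ n P` lies in the identity component, or `w` is thin and `n ≥ 1`. (This dictionary is not
used in the proof.)

The theorem. Let `A ≥ 1` and `ε > 0`. There are `C` and `δ > 0`, which depend on `g`, `K`, `A`, `ε`
only, such that for all `T ≥ 1` and for all `φ` with `Crit g A T φ c` the following is true for all
but `C T ^ (-δ) #(box K T)` of the `t ∈ box K T` (`LangSilverman g ε T (φ - t)`). `D ≠ 0`. The height
of the vector of the `1 / rs a S` is at most `[L : K] (g ^ 2 / (2 g + 1) + ε) ℓ`; so
`h_F(J) ≤ (g ^ 2 / (2 (2 g + 1)) + ε) log T`. For all the finite extensions `E / L`, for all `d`, for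
all `P ∈ J_d(E)`:

(1) if `2 P ≠ 0`, then for all the finite sets `S` of primes of `E` with `2 P ≡ 0` modulo `v`

`ĥ(P) ≥ [E : K] (1 / (4 (2 g + 1)) - ε) ℓ + 1 / 4 ∑_{v ∈ S} log (N v) - 1 / 4 log N(d)`,

where `d` is the part of the different of `E / L` composed of the primes dividing `D` (`ldd`; it is
`0` for `E = F L`, if the finite extension `F / K` is unramified at the primes dividing `D`, for
instance `F = K`);

(2) if `2 ^ n P ≠ 0` and `Comp f a X n` (no condition for the degree and the ramification of
`E / L`), then for all the finite sets `S` of primes of `E` with `2 ^ n P ≡ 0` modulo `v`

`4 ^ n ĥ(P) ≥ [E : K] (1 / (2 g + 1) - ε) ℓ + ∑_{v ∈ S} log (N v)`.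

If one of the `k`-fold differences of the coordinates of `2 P` (or of `2 ^ n P`) is not zero (`dl`),
then the constants `1 / (4 (2 g + 1))` and `1 / (2 g + 1)` can be multiplied by `k ≤ g`.

Consequences for Q1. For 100 per cent of the curves, for all the finite extensions `F / K` which are
unramified at the primes dividing `D`, for all `d ∈ F` and for all the points `P ∈ J_d(F)` of
infinite order, the absolute canonical height for `2 Θ` is at least
`(1 / (4 (2 g + 1)) - ε) log T ≥ (1 / (2 g ^ 2) - ε') h_F(J)`. This is the inequality of Q1 if the
twist by `d` is unramified outside of the primes dividing `D`, and the sum over `S` is the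
contribution of the places of additive reduction of the other twists: if such a place `v` does not
divide `2 D`, then `2 P ≡ 0` modulo all the places over `v` for all `P ∈ J_d(K)`.

The proof. `D = ± (2 g + 1) ^ (2 g + 1) ∏ (t - φ(c_i))`. For all but `C T ^ (-δ) #(box K T)` of the
`t` the numbers `t - φ(c_i)` are almost coprime, almost squarefree and not small at all the
archimedean places, so that the primes dividing `D` exactly once have a product of norm at least
`T ^ (2 g [K : ℚ] - η)`; and the zeros of `f` have the absolute value at most
`B T ^ {1 / (2 g + 1)}`. So the discriminant is of the maximal size for the size of the zeros, and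
almost all of it comes from the primes where the reduction has exactly one node. This is combined
with the lower bounds for the heights in terms of these primes (`HD.main`, `HD.main_id`; compare
`MP_f5471b_nt`, AllHyperellipticCurves, and `MP_9a3c31_nt`, HyperellipticNodes, where the curves are
arbitrary and the condition for the discriminant is an assumption). The lemmas of the counting were
proved by helper51, helper80, helper115 and helper163.
-/

set_option autoImplicit false

open NumberField IsDedekindDomain Finset Polynomial Filter Topology

namespace Pool.Agent.Results.MP_9a3c31_nt.RationalCriticalPoints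

open Pool.Agent.H433 Pool.Agent.H433.AC
open Pool.Agent.H433.CP (Crit)

open Classical in
/-- The inequality of Lang and Silverman, with explicit constants, for the Jacobians of almost all
the curves `y ^ 2 = φ(x) - t`, uniformly for all the polynomials `φ` with rational critical points,
for all their quadratic twists and over all the finite extensions of `K`. -/
theorem result (g : ℕ) (hg : 1 ≤ g) (K : Type) [Field K] [NumberField K] (A : ℝ) (hA : 1 ≤ A)
    (ε : ℝ) (hε : 0 < ε) :
    ∃ C δ : ℝ, 0 < δ ∧ ∀ T : ℕ, 1 ≤ T → ∀ (φ : (𝓞 K)[X]) (c : Fin (2 * g) → 𝓞 K),
      Crit g A T φ c →
        (((box K T).filter fun t => ¬ CP.LangSilverman g ε T (φ - Polynomial.C t)).card : ℝ) ≤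
          C * (T : ℝ) ^ (-δ) * (box K T).card :=
  Pool.Agent.H433.CP.main_ls g hg K hA hε

end Pool.Agent.Results.MP_9a3c31_nt.RationalCriticalPoints
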